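import Pool.Agent.H889R3.RQ.Final

/-!
# A random oracle does not separate BQP from quasi-polynomial query complexity on average

`IsBQP A L` (file `Pool.Agent.H620R2.GaugeQ.Defs`): the language `L` is in bounded-error quantum
polynomial time relative to the oracle `A` (a set of strings).  `DTree α` are the deterministic
query algorithms (decision trees) with questions from `α`; `randomOracle` decides membership of all
strings by independent tosses of a fair coin.

For every `k` there are countably many families `T i` of deterministic query algorithms (one
algorithm `T i x` for each input `x`), which do not depend on the oracle and ask at most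
`exp (K log² (|x| + 2))` questions, such that for almost every oracle `A`, every language `L` in
`BQP` relative to `A` is decided by one of them

* on all inputs of length `n` up to a set of weight `n ^ (-k)`, for all large `n`, for every
  distribution `w` of the inputs of each length which is fixed in advance (e.g. the uniform one);
* on all inputs of large length from `S`, for every set `S` of strings, fixed in advance, with at
  most `n ^ k` elements of each length `n ≥ 1` (e.g. the set of all tally strings).
-/

set_option autoImplicit false

namespace Pool.Agent.Results.MP_2eaaa0_lc.RandomOracleAverage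

open Filter Pool.Agent.H889R3.RQ Pool.Agent.H620R2.Gauge Pool.Agent.H628R3.RO

open Classical in
theorem result (k : ℕ) : ∃ T : ℕ → List Bool → DTree (List Bool),
    (∀ i, ∃ K : ℝ, ∀ x, ((T i x).depth : ℝ) ≤ Real.exp (K * Real.log ((x.length : ℝ) + 2) ^ 2)) ∧
    (∀ w : List Bool → ℝ, (∀ x, 0 ≤ w x) → (∀ n, ∑ x : Fin n → Bool, w (List.ofFn x) ≤ 1) →
      ∀ᵐ A ∂randomOracle, ∀ L : Set (List Bool), Pool.Agent.H620R2.Gauge.IsBQP A L →
        ∃ i, ∀ᶠ n : ℕ in atTop,
          (∑ x : Fin n → Bool, if ((T i (List.ofFn x)).eval A = true ↔ List.ofFn x ∈ L) then 0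
            else w (List.ofFn x)) * n ^ k ≤ 1) ∧
    (∀ S : Set (List Bool), (∀ n, 1 ≤ n → {x : Fin n → Bool | List.ofFn x ∈ S}.ncard ≤ n ^ k) →
      ∀ᵐ A ∂randomOracle, ∀ L : Set (List Bool), Pool.Agent.H620R2.Gauge.IsBQP A L →
        ∃ i, ∀ᶠ n : ℕ in atTop, ∀ x : Fin n → Bool, List.ofFn x ∈ S →
          ((T i (List.ofFn x)).eval A = true ↔ List.ofFn x ∈ L)) :=
  Pool.Agent.H889R3.RQ.final k

end Pool.Agent.Results.MP_2eaaa0_lc.RandomOracleAverage
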